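import Mathlib
import Pool.Agent.TH53.SL6
import Pool.Agent.Y399.RD.C

/-!
# Parry powers of Perron numbers whose minimal polynomial has a large discriminant

Let `β > 1` be a Perron number with minimal polynomial `f` of degree `d`, and let `T > 0` with
`|disc f| ≥ (d / T) ^ d`.  If

  `log β < c (log log (16 + T) / log (16 + T)) ^ 3`

with a certain absolute constant `c > 0`, then `β ^ k` is a Parry number for only finitely many `k`.
So for every `δ > 0` there is `ε > 0`, which does not depend on the degree, such that this holds for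
all the Perron numbers `β < 1 + ε` with `|disc f| ^ (1 / d) ≥ δ d`; the largest possible order of the
root discriminant of a polynomial with bounded zeros is `d`.  Conversely, if `β` is a Perron number
below `1 + ε` for which infinitely many `β ^ k` are Parry numbers, then `|disc f| ^ (1 / d) < d / T`
with a large `T = T(ε)`.

If infinitely many powers of `β` are Parry numbers, then the other conjugates of `β` lie in the
closed unit disc, so `M(f) = β`, the `m`-th powers of the conjugates are distinct for every `m`, and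
the bound of `MP_7ab245_nt.LargeDiscriminant` for Mahler measures applies.
-/

set_option autoImplicit false

open Polynomial

namespace Pool.Agent.Results.MP_1f45fc_nt.LargeDiscriminant

/-- `β > 1` is an algebraic integer whose other conjugates have modulus less than `β`. -/
def IsPerron (β : ℝ) : Prop :=
  1 < β ∧ IsIntegral ℤ β ∧
    ∀ z : ℂ, aeval z (minpoly ℤ β) = 0 → z ≠ (β : ℂ) → ‖z‖ < β

/-- The set of the `k ≥ 1` such that `β ^ k` is a Parry number, that is, the orbit of `1` under
`x ↦ fract (β ^ k * x)` is finite. -/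
def parryPowers (β : ℝ) : Set ℕ :=
  {k : ℕ | 1 ≤ k ∧ Set.Finite (Set.range (fun j : ℕ =>
    (fun x : ℝ => Int.fract (β ^ k * x))^[j] (1 : ℝ)))}

/-- **Parry powers and the discriminant.** There is an absolute constant `c > 0` such that a Perron
number `β` of degree `d`, with `|disc| ≥ (d / T) ^ d` for its minimal polynomial and
`log β < c (log log (16 + T) / log (16 + T)) ^ 3`, has only finitely many Parry powers; and for
every `δ > 0` there is `ε > 0` such that a Perron number `β < 1 + ε` with `|disc| ≥ (δ d) ^ d` for its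
minimal polynomial has only finitely many Parry powers. -/
theorem result :
    (∃ c : ℝ, 0 < c ∧ ∀ β : ℝ, IsPerron β → ∀ T : ℝ, 0 < T →
      (((minpoly ℤ β).natDegree : ℝ) / T) ^ (minpoly ℤ β).natDegree ≤
        |((minpoly ℤ β).discr : ℝ)| →
      Real.log β < c * (Real.log (Real.log (16 + T)) / Real.log (16 + T)) ^ 3 →
      (parryPowers β).Finite) ∧
    (∀ δ : ℝ, 0 < δ → ∃ ε : ℝ, 0 < ε ∧ ∀ β : ℝ, IsPerron β → β < 1 + ε →
      (δ * (minpoly ℤ β).natDegree) ^ (minpoly ℤ β).natDegree ≤ |((minpoly ℤ β).discr : ℝ)| →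
      (parryPowers β).Finite) := by
  have key : ∃ c : ℝ, 0 < c ∧ ∀ β : ℝ, IsPerron β → ∀ T : ℝ, 0 < T →
      (((minpoly ℤ β).natDegree : ℝ) / T) ^ (minpoly ℤ β).natDegree ≤
        |((minpoly ℤ β).discr : ℝ)| →
      Real.log β < c * (Real.log (Real.log (16 + T)) / Real.log (16 + T)) ^ 3 →
      (parryPowers β).Finite := by
    obtain ⟨c, hc, hmain, -⟩ := Pool.Agent.Y399.RD.main
    refine ⟨c, hc, ?_⟩
    rintro β ⟨h1, h2, h3⟩ T hT hd hlog
    by_contra hinf
    have hone := fun z hz hne => Pool.Agent.H389R3.PR.conj_le_one h1 h2 h3 hinf (z := z) hz hne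
    have hM := Pool.Agent.H389R3.PR.mahler_eq h1 h2 hone
    have h4 := hmain (minpoly ℤ β) (minpoly.irreducible h2) (by rw [hM]; exact h1)
      (fun z w hz hw hne m hm h =>
        hne (Pool.Agent.TH53.SL.salem_nondeg h1 h2 hone hz hw hm h)) T hT hd
    rw [hM] at h4
    rw [← Real.le_log_iff_exp_le (by linarith)] at h4
    linarith
  refine ⟨key, ?_⟩
  obtain ⟨c, hc, hkey⟩ := key
  intro δ hδ
  have hT : 0 < 1 / δ := by positivity
  have hpos : 0 < c * (Real.log (Real.log (16 + 1 / δ)) / Real.log (16 + 1 / δ)) ^ 3 := by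
    have h0 : (1 : ℝ) < Real.log (16 + 1 / δ) := by
      rw [Real.lt_log_iff_exp_lt (by positivity)]
      have := Real.exp_one_lt_d9
      linarith
    have h1 : 0 < Real.log (Real.log (16 + 1 / δ)) := Real.log_pos h0
    positivity
  refine ⟨c * (Real.log (Real.log (16 + 1 / δ)) / Real.log (16 + 1 / δ)) ^ 3, hpos, ?_⟩
  intro β hβ hlt hd
  refine hkey β hβ (1 / δ) hT ?_ ?_
  · rw [div_div_eq_mul_div, div_one, mul_comm]
    exact hd
  · have h6 : Real.log β ≤ β - 1 := Real.log_le_sub_one_of_pos (by linarith [hβ.1])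
    linarith

end Pool.Agent.Results.MP_1f45fc_nt.LargeDiscriminant
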