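import Mathlib
import Pool.Agent.Y820.LB.Lor4

/-!
# Salem numbers from isometries of Lorentzian lattices with axis near a lattice vector

Let `G` be an integral symmetric matrix of any size `n` and `A` an integral isometry of the form `G`
with eigenvectors `e`, `f` for real eigenvalues `β > 1` and `1 / β`, such that `G` is positive
definite on the vectors orthogonal to `e` and `f`.  So `G` is an integral lattice of signature
`(n - 1, 1)`, `A` acts on hyperbolic `(n - 1)`-space as a loxodromic isometry whose axis has the ends
`e`, `f`, and `β` is a quadratic unit or a Salem number.  Let `v` be a vector of the lattice with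
`(v, e) (v, f)` not zero.  The theorem bounds `β` from below by a number larger than `1` depending
only on bounds `L` of `(v, v)` and of `|(v, e) (v, f) / (e, f)|`, and not on the lattice, its
dimension or its discriminant.  Geometrically:
* if `(v, v) = - k` is negative and the point `v` of hyperbolic space has distance `R` from the axis
  then `(v, e) (v, f) / (e, f) = - (k / 2) cosh (R) ^ 2`;
* if `(v, v) = k` is positive and the axis crosses the hyperplane orthogonal to `v` then
  `0 < (v, e) (v, f) / (e, f) ≤ k / 2`; in particular it is enough that the axis crosses the mirror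
  of a root, or the hyperplane of any vector with `(v, v) ≤ L`;
* if `(v, v) = k` is positive and the axis has distance `R > 0` from this hyperplane then
  `(v, e) (v, f) / (e, f) = - (k / 2) sinh (R) ^ 2`.
-/

set_option autoImplicit false

namespace Pool.Agent.Results.MP_1f45fc_nt.LorentzianAxis

noncomputable section

/-- The symmetric bilinear form with the integral Gram matrix `G`. -/
def form {n : ℕ} (G : Matrix (Fin n) (Fin n) ℤ) (x y : Fin n → ℝ) : ℝ :=
  ∑ i, ∑ j, x i * (G i j : ℝ) * y j

/-- `A` is an integral isometry of the integral symmetric form `G`, with eigenvectors `e` and `f` for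
the eigenvalues `β > 1` and `1 / β`, and `G` is positive definite on the space of the vectors
orthogonal to `e` and `f`. -/
structure IsLoxodromic {n : ℕ} (G A : Matrix (Fin n) (Fin n) ℤ) (e f : Fin n → ℝ) (β : ℝ) :
    Prop where
  symmetric : G.transpose = G
  isometry : A.transpose * G * A = G
  one_lt : 1 < β
  eigen_e : ∀ i, ∑ j, (A i j : ℝ) * e j = β * e i
  eigen_f : ∀ i, ∑ j, (A i j : ℝ) * f j = β⁻¹ * f i
  positive : ∀ x : Fin n → ℝ, x ≠ 0 → form G e x = 0 → form G f x = 0 → 0 < form G x x

/-- `v` is a lattice vector with `(v, v) ≤ L` and `0 < |(v, e) (v, f)| ≤ L |(e, f)|`: the axis with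
the ends `e`, `f` is at bounded distance from `v`, or from the hyperplane orthogonal to `v`. -/
def NearAxis (L : ℝ) {n : ℕ} (G : Matrix (Fin n) (Fin n) ℤ) (e f : Fin n → ℝ) (v : Fin n → ℤ) :
    Prop :=
  form G (fun i => (v i : ℝ)) (fun i => (v i : ℝ)) ≤ L ∧
    0 < |form G e (fun i => (v i : ℝ)) * form G f (fun i => (v i : ℝ))| ∧
    |form G e (fun i => (v i : ℝ)) * form G f (fun i => (v i : ℝ))| ≤ L * |form G e f|

theorem result (L : ℝ) : ∃ μ : ℝ, 1 < μ ∧
    ∀ (n : ℕ) (G A : Matrix (Fin n) (Fin n) ℤ) (e f : Fin n → ℝ) (β : ℝ) (v : Fin n → ℤ),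
      IsLoxodromic G A e f β → NearAxis L G e f v → μ ≤ β := by
  obtain ⟨c, hc, h⟩ := Pool.Agent.Y820.LB.lorentz_real L
  refine ⟨c, hc, fun n G A e f β v hA hv => ?_⟩
  obtain ⟨h1, h2, h3⟩ := hv
  refine h n G A e f β v hA.symmetric hA.isometry hA.one_lt ?_ ?_ hA.positive h1
    (abs_pos.mp h2) h3
  · ext i
    simpa [Matrix.mulVec, dotProduct] using hA.eigen_e i
  · ext i
    simpa [Matrix.mulVec, dotProduct] using hA.eigen_f i

end

end Pool.Agent.Results.MP_1f45fc_nt.LorentzianAxis
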