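import Mathlib
import Pool.Agent.Y642.TC.D

/-!
# Parry powers of Perron numbers and the conjugates of `β` or `β + β⁻¹` in local fields

Let `β` be a Perron number, and let `f` be the minimal polynomial of `β`, of degree `d`, or, if
`β⁻¹` is a conjugate of `β`, the minimal polynomial of `β + β⁻¹`, of degree `N`. Let `K_i` be
finitely many nonarchimedean local fields of characteristic zero over distinct primes `p_i`, with
ramification index `e_i` and residue field with `q_i` elements. Let `f` have `R_i` different zeros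
in `K_i`, and let `J_i` be natural numbers (for instance `J_i = 1`). Put

* `S = ∑ R_i ^ 2 (log p_i / e_i) ∑_{j < J_i} 1 / ((q_i - 1) q_i ^ j)` for the conjugates of `β`,
  and `S = ∑ R_i ^ 2 (log p_i / e_i) ∑_{j < J_i} 1 / q_i ^ (j + 1)` for those of `β + β⁻¹`,
* `W = ∑ J_i R_i log p_i / e_i`.

Only finitely many powers of `β` are Parry numbers in each of the following cases:

* `k S > W + d log (d k) + d k (k + 1) log β` for some `k ≥ 1`, and `β < 2`;
* `S ^ 2 ≥ d ^ 2 (1 + log d) + d W`, and `β < 1.189`;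
* `k S > W + N log (2 N k) + N k (k + 1) log β` for some `k ≥ 1` (for `β + β⁻¹`);
* `S ^ 2 ≥ N ^ 2 (1 + log (2 N)) + N W`, and `β < 1.189` (for `β + β⁻¹`).

The number `1.189` is larger than Lehmer's number.

The method: if infinitely many powers of `β` are Parry numbers then the other conjugates of `β` lie
in the closed unit disc. The numbers `β ^ m + β ^ (-m)`, `m ≤ k`, have `k R_i` conjugates in `K_i`,
which fall into few classes modulo each power of a uniformizer, so the discriminant of all their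
conjugates is divisible by a high power of `p_i`. It is the square root of the discriminant of the
conjugates of the `β ^ m`, `m ≤ k`, up to the norm of the numbers `(β ^ m - β ^ (-m)) ^ 2`, which
is a nonzero integer, and Hadamard's inequality bounds it.
-/

set_option autoImplicit false

open Polynomial ValuativeRel

universe u v

namespace Pool.Agent.Results.MP_1f45fc_nt.TraceConjugates

/-- `β` is a Perron number -/
structure IsPerron (β : ℝ) : Prop where
  one_lt : 1 < β
  int : IsIntegral ℤ β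
  lt : ∀ z : ℂ, aeval z (minpoly ℤ β) = 0 → z ≠ (β : ℂ) → ‖z‖ < β

/-- the set of the `m ≥ 1` such that `β ^ m` is a Parry number -/
def parryPowers (β : ℝ) : Set ℕ :=
  {m : ℕ | 1 ≤ m ∧ Set.Finite (Set.range (fun k : ℕ =>
    (fun y : ℝ => Int.fract (β ^ m * y))^[k] (1 : ℝ)))}

/-- A nonarchimedean local field `K` of characteristic zero (in the sense of Mathlib) with the
prime number `p` below it and its ramification index `e`, so `p 𝒪 = 𝔪 ^ e`. -/
structure Place : Type (u + 1) where
  p : ℕ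
  hp : p.Prime
  K : Type u
  [fld : Field K]
  [val : ValuativeRel K]
  [top : TopologicalSpace K]
  [loc : IsNonarchimedeanLocalField K]
  [char0 : CharZero K]
  e : ℕ
  he : 1 ≤ e
  ram : Ideal.span {((p : ℕ) : 𝒪[K])} = 𝓂[K] ^ e

attribute [instance] Place.fld Place.val Place.top Place.loc Place.char0

/-- the number of elements of the residue field -/
noncomputable def Place.q (D : Place.{u}) : ℕ := Nat.card 𝓀[D.K]

/-- the sum `S` for the conjugates of `β` -/
noncomputable def sqSum {ι : Type v} [Fintype ι] (D : ι → Place.{u}) (J : ι → ℕ)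
    (Y : ∀ i, Finset (D i).K) : ℝ :=
  ∑ i, ((Y i).card : ℝ) ^ 2 * (∑ j ∈ Finset.range (J i), 1 / (((D i).q - 1) * ((D i).q : ℝ) ^ j)) /
    (D i).e * Real.log (D i).p

/-- the sum `S` for the conjugates of `β + β⁻¹` -/
noncomputable def sqSumTrace {ι : Type v} [Fintype ι] (D : ι → Place.{u}) (J : ι → ℕ)
    (Y : ∀ i, Finset (D i).K) : ℝ :=
  ∑ i, ((Y i).card : ℝ) ^ 2 * (∑ j ∈ Finset.range (J i), 1 / ((D i).q : ℝ) ^ (j + 1)) /
    (D i).e * Real.log (D i).p

/-- the sum `W` -/
noncomputable def linSum {ι : Type v} [Fintype ι] (D : ι → Place.{u}) (J : ι → ℕ)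
    (Y : ∀ i, Finset (D i).K) : ℝ :=
  ∑ i, (J i : ℝ) * (Y i).card / (D i).e * Real.log (D i).p

/-- **Parry powers of Perron numbers with many conjugates of `β` or `β + β⁻¹` in local fields.** -/
theorem result (β : ℝ) (hβ : IsPerron β) {ι : Type v} [Fintype ι] (D : ι → Place.{u})
    (hinj : Function.Injective fun i => (D i).p) (Y : ∀ i, Finset (D i).K) (J : ι → ℕ) (W : ℝ)
    (hW : W = linSum D J Y) :
    (∀ d : ℕ, d = (minpoly ℤ β).natDegree → ∀ S : ℝ, S = sqSum D J Y →
      (∀ i, ∀ x ∈ Y i, aeval x (minpoly ℤ β) = 0) →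
      (β < 2 → ∀ k : ℕ, 1 ≤ k →
        W + d * Real.log (d * k) + d * k * (k + 1) * Real.log β < k * S →
        (parryPowers β).Finite) ∧
      (β < 1189 / 1000 → d ^ 2 * (1 + Real.log d) + d * W ≤ S ^ 2 → (parryPowers β).Finite)) ∧
    (∀ N : ℕ, N = (minpoly ℤ (β + β⁻¹)).natDegree → ∀ S : ℝ, S = sqSumTrace D J Y →
      aeval β⁻¹ (minpoly ℤ β) = 0 →
      (∀ i, ∀ x ∈ Y i, aeval x (minpoly ℤ (β + β⁻¹)) = 0) →
      (∀ k : ℕ, 1 ≤ k →
        W + N * Real.log (2 * (N * k)) + N * k * (k + 1) * Real.log β < k * S →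
        (parryPowers β).Finite) ∧
      (β < 1189 / 1000 → N ^ 2 * (1 + Real.log (2 * N)) + N * W ≤ S ^ 2 →
        (parryPowers β).Finite)) ∧
    (∀ τ : ℝ, 1 < τ → τ ^ 10 + τ ^ 9 - τ ^ 7 - τ ^ 6 - τ ^ 5 - τ ^ 4 - τ ^ 3 + τ + 1 = 0 →
      τ < 1189 / 1000) := by
  have hinj' : Set.InjOn (fun i => (D i).p) (Finset.univ : Finset ι) := hinj.injOn
  let D' : ι → Pool.Agent.Y642.LZ.Place.{u} := fun i =>
    { p := (D i).p, hp := (D i).hp, K := (D i).K, e := (D i).e, he := (D i).he, ram := (D i).ram }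
  have e2 : W = Pool.Agent.Y642.LZ.linJ Finset.univ D' J (fun i => (Y i).card) := hW
  have hone : ¬ (parryPowers β).Finite →
      ∀ z : ℂ, aeval z (minpoly ℤ β) = 0 → z ≠ (β : ℂ) → ‖z‖ ≤ 1 := fun h z hz hne =>
    Pool.Agent.H389R3.PR.conj_le_one hβ.one_lt hβ.int hβ.lt h hz hne
  refine ⟨?_, ?_, fun τ h1 h2 => Pool.Agent.Y642.TC.lehmer_root h1 h2⟩
  · intro d hd S hS hY
    subst hd
    have e1 : S = Pool.Agent.Y642.LZ.sqJ Finset.univ D' J (fun i => (Y i).card) := hS
    refine ⟨fun h2 k hk h => ?_, fun hlt h => ?_⟩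
    · by_contra hinf
      have h3 := Pool.Agent.Y642.TC.salem_A hβ.one_lt h2 hβ.int (hone hinf) Finset.univ D' hinj' Y
        (fun i _ => hY i) J k hk
      rw [← e1, ← e2] at h3
      exact absurd h (not_lt.mpr h3)
    · by_contra hinf
      have h3 := Pool.Agent.Y642.TC.salem_A_sharp hβ.one_lt hβ.int (hone hinf) Finset.univ D' hinj'
        Y (fun i _ => hY i) J e1 e2 h
      exact absurd hlt (not_lt.mpr h3)
  · intro N hN S hS hrec hY
    subst hN
    have e1 : S = Pool.Agent.Y642.TC.sqT Finset.univ D' J (fun i => (Y i).card) := hS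
    refine ⟨fun k hk h => ?_, fun hlt h => ?_⟩
    · by_contra hinf
      have h3 := Pool.Agent.Y642.TC.salem_T hβ.one_lt hβ.int (hone hinf) hrec Finset.univ D' hinj'
        Y (fun i _ => hY i) J k hk
      rw [← e1, ← e2] at h3
      exact absurd h (not_lt.mpr h3)
    · by_contra hinf
      have h3 := Pool.Agent.Y642.TC.salem_T_sharp hβ.one_lt hβ.int (hone hinf) hrec Finset.univ D'
        hinj' Y (fun i _ => hY i) J e1 e2 h
      exact absurd hlt (not_lt.mpr h3)

end Pool.Agent.Results.MP_1f45fc_nt.TraceConjugates
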